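import Pool.Agent.Lib.MP_72b724_gt.Interfaces

/-!
# MP_72b724_gt: modules AMEN and ABMEAN

Groups of subexponential growth have invariant means; commutative groups have invariant means.
-/

open scoped ENNReal Topology Nat BigOperators Pointwise
open MeasureTheory Set Filter

namespace Pool.Agent.Lib.MP_72b724_gt.H51

noncomputable section

/-- The average of a function over a finite set. -/
def avgOn {G : Type} (F : Finset G) (f : G → ℝ) : ℝ := (∑ x ∈ F, f x) / F.card

theorem avgOn_le {G : Type} (F : Finset G) (f : G → ℝ) (C : ℝ) (hC : 0 ≤ C)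
    (h : ∀ x, |f x| ≤ C) : |avgOn F f| ≤ C := by
  unfold avgOn
  rw [abs_div, Nat.abs_cast]
  rcases Nat.eq_zero_or_pos F.card with h0 | h0
  · rw [h0]
    simpa using hC
  · rw [div_le_iff₀ (by exact_mod_cast h0)]
    calc |∑ x ∈ F, f x| ≤ ∑ x ∈ F, |f x| := Finset.abs_sum_le_sum_abs _ _
      _ ≤ ∑ x ∈ F, C := Finset.sum_le_sum fun x _ => h x
      _ = C * F.card := by rw [Finset.sum_const, nsmul_eq_mul, mul_comm]

/-- If `g F ∪ F ⊆ F'` then the averages of `f` and of its translate over `F` differ by at most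
`2 C (|F'| - |F|) / |F|`. -/
theorem avgOn_sub {G : Type} [Group G] (F F' : Finset G) (g : G)
    (h1 : F ⊆ F') (h2 : ∀ x ∈ F, g * x ∈ F') (f : G → ℝ) (C : ℝ) (hf : ∀ x, |f x| ≤ C)
    (ε : ℝ) (hF : 0 < F.card) (hε : (F'.card : ℝ) ≤ (1 + ε) * F.card) :
    |avgOn F (fun x => f (g * x)) - avgOn F f| ≤ 2 * C * ε := by
  classical
  have hC : 0 ≤ C := (abs_nonneg _).trans (hf 1)
  have hcard : (0 : ℝ) < F.card := by exact_mod_cast hF
  have key : ∀ A : Finset G, A ⊆ F' → A.card = F.card →
      |∑ x ∈ F', f x - ∑ x ∈ A, f x| ≤ C * (ε * F.card) := by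
    intro A hA hcA
    rw [← Finset.sum_sdiff hA, add_sub_cancel_right]
    calc |∑ x ∈ F' \ A, f x| ≤ ∑ x ∈ F' \ A, |f x| := Finset.abs_sum_le_sum_abs _ _
      _ ≤ ∑ x ∈ F' \ A, C := Finset.sum_le_sum fun x _ => hf x
      _ = C * ((F' \ A).card : ℝ) := by rw [Finset.sum_const, nsmul_eq_mul, mul_comm]
      _ ≤ C * (ε * F.card) := by
        apply mul_le_mul_of_nonneg_left _ hC
        rw [Finset.cast_card_sdiff hA, hcA]
        linarith
  have hinj : Function.Injective fun x : G => g * x := mul_right_injective g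
  have e1 : ∑ x ∈ F, f (g * x) = ∑ x ∈ F.image (fun x => g * x), f x := by
    rw [Finset.sum_image (fun x _ y _ h => hinj h)]
  have k1 := key F h1 rfl
  have k2 := key (F.image (fun x => g * x))
    (by
      intro y hy
      obtain ⟨x, hx, rfl⟩ := Finset.mem_image.1 hy
      exact h2 x hx)
    (Finset.card_image_of_injective _ hinj)
  unfold avgOn
  rw [← sub_div, abs_div, Nat.abs_cast, div_le_iff₀ hcard, e1]
  have : |∑ x ∈ F.image (fun x => g * x), f x - ∑ x ∈ F, f x| ≤
      |∑ x ∈ F', f x - ∑ x ∈ F, f x| + |∑ x ∈ F', f x - ∑ x ∈ F.image (fun x => g * x), f x| := by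
    have := abs_sub (∑ x ∈ F', f x - ∑ x ∈ F, f x)
      (∑ x ∈ F', f x - ∑ x ∈ F.image (fun x => g * x), f x)
    rwa [sub_sub_sub_cancel_left] at this
  calc _ ≤ _ := this
    _ ≤ C * (ε * F.card) + C * (ε * F.card) := add_le_add k1 k2
    _ = 2 * C * ε * F.card := by ring

/-- A Folner condition. -/
theorem exists_folner {G : Type} [Group G] (hG : SubexpGrowth G) (S : Finset G) (ε : ℝ)
    (hε : 0 < ε) :
    ∃ F : Finset G, 0 < F.card ∧ ∀ g ∈ S, ∀ (f : G → ℝ) (C : ℝ), (∀ x, |f x| ≤ C) →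
      |avgOn F (fun x => f (g * x)) - avgOn F f| ≤ 2 * C * ε := by
  classical
  set S' : Finset G := insert 1 S with hS'
  have hne : ∀ k, 0 < (S' ^ k).card := by
    intro k
    exact Finset.card_pos.2 ((Finset.insert_nonempty _ _).pow)
  have hk : ∃ k : ℕ, ((S' ^ (k + 1)).card : ℝ) ≤ (1 + ε) * (S' ^ k).card := by
    by_contra hcon
    push Not at hcon
    have hlow : ∀ k : ℕ, (1 + ε) ^ k ≤ ((S' ^ k).card : ℝ) := by
      intro k
      induction k with
      | zero => simp
      | succ k ih =>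
        calc (1 + ε) ^ (k + 1) = (1 + ε) * (1 + ε) ^ k := by ring
          _ ≤ (1 + ε) * (S' ^ k).card := by
            apply mul_le_mul_of_nonneg_left ih
            linarith
          _ ≤ _ := (hcon k).le
    have h := hG (S' : Set G) S'.finite_toSet (1 + ε / 2) (by linarith)
    obtain ⟨k, hk1, hk2⟩ := (h.and (eventually_ge_atTop 1)).exists
    rw [← Finset.coe_pow, Set.ncard_coe_finset] at hk1
    have h3 := (hlow k).trans hk1
    have h4 : (1 + ε / 2) ^ k < (1 + ε) ^ k :=
      pow_lt_pow_left₀ (by linarith) (by linarith) (by omega)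
    linarith
  obtain ⟨k, hk⟩ := hk
  refine ⟨S' ^ k, hne k, fun g hg f C hf => ?_⟩
  refine avgOn_sub (S' ^ k) (S' ^ (k + 1)) g ?_ ?_ f C hf ε (hne k) hk
  · intro x hx
    rw [pow_succ']
    exact Finset.mem_mul.2 ⟨1, Finset.mem_insert_self _ _, x, hx, one_mul x⟩
  · intro x hx
    rw [pow_succ']
    exact Finset.mul_mem_mul (Finset.mem_insert_of_mem hg) hx

/-- [AMEN] -/
theorem amen : AmenStatement := by
  intro G _ hG
  classical
  have hF : ∀ i : Finset G × ℕ, ∃ F : Finset G, 0 < F.card ∧ ∀ g ∈ i.1, ∀ (f : G → ℝ) (C : ℝ),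
      (∀ x, |f x| ≤ C) → |avgOn F (fun x => f (g * x)) - avgOn F f| ≤ 2 * C * (1 / (i.2 + 1)) :=
    fun i => exists_folner hG i.1 _ (by positivity)
  choose F hF0 hF1 using hF
  set U : Ultrafilter (Finset G × ℕ) := Ultrafilter.of atTop with hU
  have hUle : (U : Filter (Finset G × ℕ)) ≤ atTop := Ultrafilter.of_le atTop
  have hlim : ∀ f : Bdd G, ∃ a : ℝ, Tendsto (fun i => avgOn (F i) f.1) U (𝓝 a) := by
    intro f
    obtain ⟨C, hC⟩ := f.2
    have hC0 : 0 ≤ C := (abs_nonneg _).trans (hC 1)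
    have hcomp : IsCompact (Icc (-C) C) := isCompact_Icc
    have hmem : ∀ i, avgOn (F i) f.1 ∈ Icc (-C) C := fun i =>
      abs_le.1 (avgOn_le (F i) f.1 C hC0 hC)
    obtain ⟨a, _, ha⟩ := hcomp.ultrafilter_le_nhds (U.map fun i => avgOn (F i) f.1)
      (by
        rw [Ultrafilter.coe_map, le_principal_iff]
        exact Filter.mem_map.2 (Filter.univ_mem' hmem))
    exact ⟨a, by simpa [Tendsto] using ha⟩
  choose L hL using hlim
  refine ⟨⟨⟨⟨L, ?_⟩, ?_⟩, ?_, ?_, ?_⟩⟩
  · intro f g
    refine tendsto_nhds_unique (hL (f + g)) (((hL f).add (hL g)).congr fun i => ?_)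
    change avgOn (F i) f.1 + avgOn (F i) g.1 = avgOn (F i) (fun x => f.1 x + g.1 x)
    unfold avgOn
    rw [← add_div, Finset.sum_add_distrib]
  · intro c f
    refine tendsto_nhds_unique (hL (c • f)) (((hL f).const_mul c).congr fun i => ?_)
    change c * avgOn (F i) f.1 = avgOn (F i) (fun x => c * f.1 x)
    unfold avgOn
    rw [← Finset.mul_sum, mul_div_assoc]
  · refine tendsto_nhds_unique (hL _) (tendsto_const_nhds.congr fun i => ?_)
    change (1 : ℝ) = avgOn (F i) (fun _ => 1)
    unfold avgOn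
    have h0 : ((F i).card : ℝ) ≠ 0 := by
      exact_mod_cast (hF0 i).ne'
    rw [Finset.sum_const, nsmul_eq_mul, mul_one, div_self h0]
  · intro f C hC
    have hC0 : 0 ≤ C := (abs_nonneg _).trans (hC 1)
    have h : Tendsto (fun i => |avgOn (F i) f.1|) U (𝓝 |L f|) := (hL f).abs
    exact le_of_tendsto h (Filter.univ_mem' fun i => avgOn_le (F i) f.1 C hC0 hC)
  · intro g f
    obtain ⟨C, hC⟩ := f.2
    have h1 := (hL (Bdd.pull (fun x => g * x) f)).sub (hL f)
    have h2 : Tendsto (fun i : Finset G × ℕ => 2 * C * (1 / ((i.2 : ℝ) + 1))) U (𝓝 0) := by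
      have h3 : Tendsto (fun i : Finset G × ℕ => (i.2 : ℕ)) U atTop := by
        have h30 : Tendsto (fun i : Finset G × ℕ => (i.2 : ℕ)) atTop atTop := by
          rw [← prod_atTop_atTop_eq]
          exact tendsto_snd
        exact h30.mono_left hUle
      have h4 := (tendsto_one_div_add_atTop_nhds_zero_nat (𝕜 := ℝ)).comp h3
      simpa using h4.const_mul (2 * C)
    have h5 : Tendsto (fun i => avgOn (F i) (Bdd.pull (fun x => g * x) f).1 - avgOn (F i) f.1) U
        (𝓝 0) := by
      refine squeeze_zero_norm' ?_ h2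
      have hev : ∀ᶠ i : Finset G × ℕ in (U : Filter (Finset G × ℕ)), g ∈ i.1 := by
        refine Eventually.filter_mono hUle ?_
        refine (eventually_ge_atTop (({g} : Finset G), (0 : ℕ))).mono fun i hi => ?_
        exact hi.1 (Finset.mem_singleton_self g)
      refine hev.mono fun i hi => ?_
      rw [Real.norm_eq_abs]
      exact hF1 i g hi f.1 C hC
    have := tendsto_nhds_unique h1 h5
    exact sub_eq_zero.1 this

/-- Powers of a finite subset of a commutative group. -/
theorem comm_pow_subset {G : Type} [CommGroup G] (S : Finset G) (k : ℕ) :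
    ((S : Set G) ^ k) ⊆ Set.range (fun e : S → Fin (k + 1) => ∏ i : S, (i : G) ^ (e i : ℕ)) := by
  classical
  induction k with
  | zero =>
    intro x hx
    rw [pow_zero, Set.mem_one] at hx
    exact ⟨fun _ => 0, by simp [hx]⟩
  | succ k ih =>
    intro x hx
    rw [pow_succ] at hx
    obtain ⟨y, hy, z, hz, rfl⟩ := Set.mem_mul.1 hx
    obtain ⟨e, rfl⟩ := ih hy
    refine ⟨fun i => if i = ⟨z, hz⟩ then (e i).succ else (e i).castSucc, ?_⟩
    have h : ∀ i : S, (i : G) ^ (((if i = ⟨z, hz⟩ then (e i).succ else (e i).castSucc :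
        Fin (k + 1 + 1)) : ℕ)) = (i : G) ^ (e i : ℕ) * (if i = ⟨z, hz⟩ then z else 1) := by
      intro i
      split_ifs with hi
      · subst hi
        rw [Fin.val_succ, pow_succ]
      · simp
    simp only [h, Finset.prod_mul_distrib]
    congr 1
    simp

/-- Commutative groups have subexponential growth. -/
theorem subexp_comm (G : Type) [CommGroup G] : SubexpGrowth G := by
  classical
  intro S hS b hb
  lift S to Finset G using hS
  have h1 : ∀ k : ℕ, (((S : Set G) ^ k).ncard : ℝ) ≤ ((k : ℝ) + 1) ^ S.card := by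
    intro k
    have h2 := Set.ncard_le_ncard (comm_pow_subset S k) (Set.finite_range _)
    have h3 : (Set.range (fun e : S → Fin (k + 1) => ∏ i : S, (i : G) ^ (e i : ℕ))).ncard ≤
        (k + 1) ^ S.card := by
      rw [← Set.image_univ]
      refine (Set.ncard_image_le (Set.finite_univ)).trans ?_
      rw [Set.ncard_univ]
      simp
    have h4 := h2.trans h3
    exact_mod_cast h4
  have h5 : Tendsto (fun k : ℕ => ((k + 1 : ℕ) : ℝ) ^ S.card / b ^ (k + 1)) atTop (𝓝 0) :=
    (tendsto_pow_const_div_const_pow_of_one_lt S.card hb).comp (tendsto_add_atTop_nat 1)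
  have hb0 : 0 < b := by linarith
  have h6 := h5.eventually_le_const (show (0 : ℝ) < 1 / b by positivity)
  refine h6.mono fun k hk => (h1 k).trans ?_
  rw [div_le_div_iff₀ (by positivity) hb0, one_mul, pow_succ b k] at hk
  push_cast at hk
  exact le_of_mul_le_mul_right hk hb0

/-- [ABMEAN] -/
theorem abMean : AbMeanStatement := by
  intro π _
  obtain ⟨μ⟩ := amen (Multiplicative π) (subexp_comm _)
  refine ⟨⟨μ.m.comp (Bdd.pull Multiplicative.toAdd), ?_, ?_, ?_⟩⟩
  · exact μ.one
  · intro f C hC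
    exact μ.le _ C fun x => hC _
  · intro g f
    exact μ.inv (Multiplicative.ofAdd g) (Bdd.pull Multiplicative.toAdd f)

end

end Pool.Agent.Lib.MP_72b724_gt.H51
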