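import Pool.Agent.Lib.MP_72b724_gt.Interfaces

/-!
# MP_72b724_gt: module HB

Duality between the simplicial norm and bounded cocycles (Hahn-Banach).
-/

open scoped BigOperators
open Set Pool.Agent.Lib.MP_904b2a_gt Pool.Agent.Lib.MP_89fcdb_gt

namespace Pool.Agent.Lib.MP_72b724_gt.H51

noncomputable section

variable {X : Type} [TopologicalSpace X]

theorem l1_eq_sum {n : ℕ} (z : RChain n X) (s : Finset (Sing n X)) (hs : z.support ⊆ s) :
    l1norm z = ∑ σ ∈ s, |z σ| :=
  Finsupp.sum_of_support_subset z hs _ fun _ _ => abs_zero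

theorem l1_nonneg {n : ℕ} (z : RChain n X) : 0 ≤ l1norm z :=
  Finset.sum_nonneg fun _ _ => abs_nonneg _

theorem l1_add {n : ℕ} (x y : RChain n X) : l1norm (x + y) ≤ l1norm x + l1norm y := by
  classical
  rw [l1_eq_sum x (x.support ∪ y.support) Finset.subset_union_left,
    l1_eq_sum y (x.support ∪ y.support) Finset.subset_union_right,
    l1_eq_sum (x + y) (x.support ∪ y.support) Finsupp.support_add, ← Finset.sum_add_distrib]
  exact Finset.sum_le_sum fun σ _ => abs_add_le _ _

theorem l1_smul {n : ℕ} (c : ℝ) (x : RChain n X) : l1norm (c • x) = |c| * l1norm x := by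
  rw [l1_eq_sum (c • x) x.support Finsupp.support_smul, l1_eq_sum x x.support subset_rfl,
    Finset.mul_sum]
  exact Finset.sum_congr rfl fun σ _ => abs_mul _ _

theorem l1_single {n : ℕ} (σ : Sing n X) (a : ℝ) : l1norm (Finsupp.single σ a) = |a| :=
  Finsupp.sum_single_index abs_zero

theorem l1_zero {n : ℕ} : l1norm (0 : RChain n X) = 0 := Finsupp.sum_zero_index

/-- The seminorm of the homology class. -/
def pn (n : ℕ) (x : RChain n X) : ℝ := sInf {r : ℝ | ∃ b : RChain (n + 1) X, r = l1norm (x + rbdry n b)}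

theorem pn_le (n : ℕ) (x : RChain n X) (b : RChain (n + 1) X) : pn n x ≤ l1norm (x + rbdry n b) :=
  csInf_le ⟨0, by
    rintro r ⟨b, rfl⟩
    exact l1_nonneg _⟩ ⟨b, rfl⟩

theorem pn_nonneg (n : ℕ) (x : RChain n X) : 0 ≤ pn n x :=
  Real.sInf_nonneg (by
    rintro r ⟨b, rfl⟩
    exact l1_nonneg _)

theorem pn_lt (n : ℕ) (x : RChain n X) (ε : ℝ) (hε : 0 < ε) :
    ∃ b : RChain (n + 1) X, l1norm (x + rbdry n b) < pn n x + ε := by
  obtain ⟨r, ⟨b, rfl⟩, hr⟩ := exists_lt_of_csInf_lt (s := {r : ℝ | ∃ b : RChain (n + 1) X,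
    r = l1norm (x + rbdry n b)}) ⟨_, 0, rfl⟩ (show sInf _ < pn n x + ε from lt_add_of_pos_right _ hε)
  exact ⟨b, hr⟩

theorem pn_add (n : ℕ) (x y : RChain n X) : pn n (x + y) ≤ pn n x + pn n y := by
  refine le_of_forall_pos_le_add fun ε hε => ?_
  obtain ⟨b, hb⟩ := pn_lt n x (ε / 2) (half_pos hε)
  obtain ⟨b', hb'⟩ := pn_lt n y (ε / 2) (half_pos hε)
  have h := pn_le n (x + y) (b + b')
  have h2 : x + y + rbdry n (b + b') = (x + rbdry n b) + (y + rbdry n b') := by
    rw [map_add]
    abel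
  rw [h2] at h
  have h3 := l1_add (x + rbdry n b) (y + rbdry n b')
  linarith

theorem pn_smul_le (n : ℕ) (c : ℝ) (hc : 0 < c) (x : RChain n X) : pn n (c • x) ≤ c * pn n x := by
  refine le_of_forall_pos_le_add fun ε hε => ?_
  obtain ⟨b, hb⟩ := pn_lt n x (ε / c) (div_pos hε hc)
  have h := pn_le n (c • x) (c • b)
  rw [map_smul, ← smul_add, l1_smul, abs_of_pos hc] at h
  have h2 := mul_lt_mul_of_pos_left hb hc
  rw [mul_add, mul_div_cancel₀ _ hc.ne'] at h2
  linarith

theorem pn_smul (n : ℕ) (c : ℝ) (hc : 0 < c) (x : RChain n X) : pn n (c • x) = c * pn n x := by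
  refine le_antisymm (pn_smul_le n c hc x) ?_
  have h := pn_smul_le n c⁻¹ (inv_pos.2 hc) (c • x)
  rw [smul_smul, inv_mul_cancel₀ hc.ne', one_smul] at h
  have h2 := mul_le_mul_of_nonneg_left h hc.le
  rwa [← mul_assoc, mul_inv_cancel₀ hc.ne', one_mul] at h2

theorem pn_zero (n : ℕ) : pn n (0 : RChain n X) = 0 := by
  refine le_antisymm ?_ (pn_nonneg n _)
  have h := pn_le n (0 : RChain n X) 0
  rwa [map_zero, add_zero, l1_zero] at h

theorem rbdry_single (n : ℕ) (σ : Sing (n + 1) X) (a : ℝ) :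
    rbdry n (Finsupp.single σ a) =
      ∑ i : Fin (n + 2), ((-1 : ℝ) ^ (i : ℕ)) • Finsupp.single (σ.face i) a := by
  unfold rbdry
  rw [Finsupp.lsum_single, LinearMap.sum_apply]
  rfl

/-- The evaluation of the cochain of a functional. -/
theorem ev_functional (n : ℕ) (g : RChain n X →ₗ[ℝ] ℝ) (c : Chain n X) :
    H35.ev n (A := ℝ) (fun σ => g (Finsupp.single σ 1)) c = g (toReal c) := by
  induction c using Finsupp.induction_linear with
  | zero => simp [toReal]
  | add a b ha hb =>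
    rw [map_add, ha, hb, ← map_add]
    congr 1
    unfold toReal
    rw [Finsupp.mapRange_add (fun k l => by push_cast; rfl)]
  | single σ k =>
    rw [H35.ev_single]
    unfold toReal
    rw [Finsupp.mapRange_single, zsmul_eq_mul]
    have h : (Finsupp.single σ (k : ℝ) : RChain n X) = (k : ℝ) • Finsupp.single σ 1 := by
      rw [Finsupp.smul_single, smul_eq_mul, mul_one]
    rw [h, map_smul, smul_eq_mul]

/-- [HB] -/
theorem hb : HBStatement := by
  intro n X _ c B hB _ hφ
  change pn (n + 1) (toReal c) ≤ B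
  set z : RChain (n + 1) X := toReal c with hz
  by_cases hz0 : z = 0
  · rw [hz0, pn_zero]
    exact hB
  obtain ⟨g, hg1, hg2⟩ := exists_extension_of_le_sublinear
    (LinearPMap.mkSpanSingleton z (pn (n + 1) z) hz0) (pn (n + 1)) (pn_smul (n + 1))
    (pn_add (n + 1)) (by
      rintro ⟨x, hx⟩
      obtain ⟨t, rfl⟩ := Submodule.mem_span_singleton.1 hx
      have h9 : (LinearPMap.mkSpanSingleton z (pn (n + 1) z) hz0 : RChain (n + 1) X →ₗ.[ℝ] ℝ)
          ⟨t • z, hx⟩ = t * pn (n + 1) z := LinearPMap.mkSpanSingleton'_apply _ _ _ _ _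
      rw [h9]
      rcases lt_trichotomy t 0 with ht | ht | ht
      · exact (mul_nonpos_of_nonpos_of_nonneg ht.le (pn_nonneg _ _)).trans (pn_nonneg _ _)
      · subst ht
        rw [zero_mul]
        exact pn_nonneg _ _
      · exact (pn_smul (n + 1) t ht z).ge)
  have hgz : g z = pn (n + 1) z := by
    have h := hg1 ⟨z, Submodule.mem_span_singleton_self z⟩
    rw [h]
    exact LinearPMap.mkSpanSingleton'_apply_self _ _ _ _
  have hle : ∀ x : RChain (n + 1) X, |g x| ≤ max (pn (n + 1) x) (pn (n + 1) (-x)) := by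
    intro x
    rw [abs_le']
    refine ⟨(hg2 x).trans le_sup_left, ?_⟩
    rw [← map_neg]
    exact (hg2 (-x)).trans le_sup_right
  have hpl : ∀ x : RChain (n + 1) X, pn (n + 1) x ≤ l1norm x := by
    intro x
    have h := pn_le (n + 1) x 0
    rwa [map_zero, add_zero] at h
  have hneg : ∀ x : RChain (n + 1) X, l1norm (-x) = l1norm x := by
    intro x
    rw [← neg_one_smul ℝ x, l1_smul, abs_neg, abs_one, one_mul]
  have hbd : ∀ b : RChain (n + 1 + 1) X, g (rbdry (n + 1) b) = 0 := by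
    intro b
    have h1 : pn (n + 1) (rbdry (n + 1) b) ≤ 0 := by
      have h := pn_le (n + 1) (rbdry (n + 1) b) (-b)
      rwa [map_neg, add_neg_cancel, l1_zero] at h
    have h2 : pn (n + 1) (-(rbdry (n + 1) b)) ≤ 0 := by
      have h := pn_le (n + 1) (-(rbdry (n + 1) b)) b
      rwa [neg_add_cancel, l1_zero] at h
    have h3 := (hle (rbdry (n + 1) b)).trans (sup_le h1 h2)
    exact abs_nonpos_iff.1 h3
  have h := hφ (fun σ => g (Finsupp.single σ 1)) (by
    intro σ
    refine (hle _).trans (sup_le ?_ ?_)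
    · refine (hpl _).trans ?_
      rw [l1_single, abs_one]
    · refine (hpl _).trans ?_
      rw [hneg, l1_single, abs_one]) (by
    funext τ
    rw [cob_apply, Finset.sum_range]
    have h4 := hbd (Finsupp.single τ 1)
    rw [rbdry_single, map_sum] at h4
    refine Eq.trans (Finset.sum_congr rfl fun i _ => ?_) h4
    rw [map_smul, H35.face_eq, zsmul_eq_mul, smul_eq_mul]
    push_cast
    rfl)
  rw [ev_functional, ← hz, hgz] at h
  exact (le_abs_self _).trans h

end

end Pool.Agent.Lib.MP_72b724_gt.H51
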