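import Pool.Agent.Lib.MP_72b724_gt.Stmt

/-!
# MP_72b724_gt: module RVEX

Existence of the Riemannian volume: a measure given by `√det(gᵢⱼ) dy` in all charts.
-/

open scoped Manifold ContDiff ENNReal Topology BigOperators
open MeasureTheory Set Filter Bundle

namespace Pool.Agent.Lib.MP_72b724_gt.H51

noncomputable section

variable {n : ℕ} {M : Type} [MetricSpace M] [ChartedSpace (EuclideanSpace ℝ (Fin n)) M]
  [RiemannianBundle (fun (x : M) => TangentSpace (𝓡 n) x)]

/-- The metric at `p`, as a function of two vectors. -/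
def metT (p : M) (v w : TangentSpace (𝓡 n) p) : ℝ := inner ℝ v w

/-- The metric at `p`, as a function of two vectors of the Euclidean space. -/
def met (p : M) (v w : EuclideanSpace ℝ (Fin n)) : ℝ := metT p v w

/-- The derivative of the inverse chart. -/
def ds (x : M) (y : EuclideanSpace ℝ (Fin n)) :
    EuclideanSpace ℝ (Fin n) →L[ℝ] EuclideanSpace ℝ (Fin n) :=
  mfderiv 𝓘(ℝ, EuclideanSpace ℝ (Fin n)) (𝓡 n) (extChartAt (𝓡 n) x).symm y

theorem gram_apply (x : M) (y : EuclideanSpace ℝ (Fin n)) (i j : Fin n) :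
    gram x y i j = met ((extChartAt (𝓡 n) x).symm y) (ds x y (EuclideanSpace.single i 1))
      (ds x y (EuclideanSpace.single j 1)) := rfl

theorem met_add_left (p : M) (u v w : EuclideanSpace ℝ (Fin n)) :
    met p (u + v) w = met p u w + met p v w :=
  inner_add_left (E := TangentSpace (𝓡 n) p) u v w

theorem met_add_right (p : M) (u v w : EuclideanSpace ℝ (Fin n)) :
    met p u (v + w) = met p u v + met p u w :=
  inner_add_right (E := TangentSpace (𝓡 n) p) u v w

theorem met_smul_left (p : M) (c : ℝ) (v w : EuclideanSpace ℝ (Fin n)) :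
    met p (c • v) w = c * met p v w :=
  real_inner_smul_left (F := TangentSpace (𝓡 n) p) v w c

theorem met_smul_right (p : M) (c : ℝ) (v w : EuclideanSpace ℝ (Fin n)) :
    met p v (c • w) = c * met p v w :=
  real_inner_smul_right (F := TangentSpace (𝓡 n) p) v w c

/-- The metric as a bilinear form. -/
def metL (p : M) : EuclideanSpace ℝ (Fin n) →ₗ[ℝ] EuclideanSpace ℝ (Fin n) →ₗ[ℝ] ℝ :=
  LinearMap.mk₂ ℝ (met p) (met_add_left p) (met_smul_left p) (met_add_right p) (met_smul_right p)

theorem metL_apply (p : M) (v w : EuclideanSpace ℝ (Fin n)) : metL p v w = met p v w := rfl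

theorem eucl_sum (v : EuclideanSpace ℝ (Fin n)) :
    v = ∑ k, v k • EuclideanSpace.single k (1 : ℝ) := by
  ext i
  simp [Finset.sum_apply, Pi.single_apply]

/-- The Gram determinant under a linear change of variables. -/
theorem det_gram_comp (b : EuclideanSpace ℝ (Fin n) →ₗ[ℝ] EuclideanSpace ℝ (Fin n) →ₗ[ℝ] ℝ)
    (S T : EuclideanSpace ℝ (Fin n) →L[ℝ] EuclideanSpace ℝ (Fin n)) :
    (Matrix.of fun i j => b (S (T (EuclideanSpace.single i 1)))
      (S (T (EuclideanSpace.single j 1)))).det =
    T.det ^ 2 * (Matrix.of fun i j => b (S (EuclideanSpace.single i 1))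
      (S (EuclideanSpace.single j 1))).det := by
  set D : Matrix (Fin n) (Fin n) ℝ := Matrix.of fun k i => (T (EuclideanSpace.single i 1)) k with hD
  set B : Matrix (Fin n) (Fin n) ℝ := Matrix.of fun i j => b (S (EuclideanSpace.single i 1))
      (S (EuclideanSpace.single j 1)) with hB
  have h1 : (Matrix.of fun i j => b (S (T (EuclideanSpace.single i 1)))
      (S (T (EuclideanSpace.single j 1)))) = D.transpose * B * D := by
    ext i j
    rw [Matrix.of_apply, eucl_sum (T (EuclideanSpace.single i 1)),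
      eucl_sum (T (EuclideanSpace.single j 1))]
    simp only [map_sum, map_smul, LinearMap.sum_apply, LinearMap.smul_apply, smul_eq_mul,
      Matrix.mul_apply, Matrix.transpose_apply]
    refine Finset.sum_congr rfl fun k _ => ?_
    rw [Finset.sum_mul, Finset.mul_sum]
    refine Finset.sum_congr rfl fun l _ => ?_
    simp only [hD, hB, Matrix.of_apply]
    ring
  have h2 : D.det = T.det := by
    have h3 : D = LinearMap.toMatrix (EuclideanSpace.basisFun (Fin n) ℝ).toBasis
        (EuclideanSpace.basisFun (Fin n) ℝ).toBasis (T : EuclideanSpace ℝ (Fin n) →ₗ[ℝ] _) := by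
      ext i j
      simp [LinearMap.toMatrix_apply, hD]
    rw [h3, LinearMap.det_toMatrix]
  rw [h1, Matrix.det_mul, Matrix.det_mul, Matrix.det_transpose, h2]
  ring

/-- The density of the Riemannian volume in a chart. -/
def dens (x : M) (y : EuclideanSpace ℝ (Fin n)) : ℝ≥0∞ := ENNReal.ofReal (√((gram x y).det))

variable [IsManifold (𝓡 n) ∞ M]

/-- The transition map. -/
def trans (x x' : M) : EuclideanSpace ℝ (Fin n) → EuclideanSpace ℝ (Fin n) :=
  fun y => extChartAt (𝓡 n) x' ((extChartAt (𝓡 n) x).symm y)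

theorem dens_trans (x x' : M) (y : EuclideanSpace ℝ (Fin n)) (hy : y ∈ (extChartAt (𝓡 n) x).target)
    (hy' : (extChartAt (𝓡 n) x).symm y ∈ (extChartAt (𝓡 n) x').source) :
    HasFDerivAt (trans x x') (fderiv ℝ (trans x x') y) y ∧
    dens x y = ENNReal.ofReal |(fderiv ℝ (trans x x') y).det| * dens x' (trans x x' y) := by
  set φ := extChartAt (𝓡 n) x with hφ
  set φ' := extChartAt (𝓡 n) x' with hφ'
  have hopen : IsOpen φ.target := isOpen_extChartAt_target x
  have hd1 : MDifferentiableAt 𝓘(ℝ, EuclideanSpace ℝ (Fin n)) (𝓡 n) φ.symm y :=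
    ((contMDiffOn_extChartAt_symm (I := 𝓡 n) (n := ∞) x).contMDiffAt
      (hopen.mem_nhds hy)).mdifferentiableAt (by simp)
  have hd2 : MDifferentiableAt (𝓡 n) 𝓘(ℝ, EuclideanSpace ℝ (Fin n)) φ' (φ.symm y) :=
    mdifferentiableAt_extChartAt (by simpa [hφ'] using hy')
  have hd3 : MDifferentiableAt 𝓘(ℝ, EuclideanSpace ℝ (Fin n)) 𝓘(ℝ, EuclideanSpace ℝ (Fin n))
      (trans x x') y := hd2.comp y hd1
  have hd4 : DifferentiableAt ℝ (trans x x') y := mdifferentiableAt_iff_differentiableAt.1 hd3
  refine ⟨hd4.hasFDerivAt, ?_⟩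
  have hmem : trans x x' y ∈ φ'.target := φ'.map_source hy'
  have hd5 : MDifferentiableAt 𝓘(ℝ, EuclideanSpace ℝ (Fin n)) (𝓡 n) φ'.symm (trans x x' y) :=
    ((contMDiffOn_extChartAt_symm (I := 𝓡 n) (n := ∞) x').contMDiffAt
      ((isOpen_extChartAt_target x').mem_nhds hmem)).mdifferentiableAt (by simp)
  have hev : φ.symm =ᶠ[𝓝 y] φ'.symm ∘ (trans x x') := by
    have h1 : ∀ᶠ z in 𝓝 y, φ.symm z ∈ φ'.source :=
      hd1.continuousAt.eventually ((isOpen_extChartAt_source x').mem_nhds hy')
    exact h1.mono fun z hz => (φ'.left_inv hz).symm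
  have hpt : φ'.symm (trans x x' y) = φ.symm y := φ'.left_inv hy'
  have hds : ∀ v, ds x y v = ds x' (trans x x' y) (fderiv ℝ (trans x x') y v) := by
    intro v
    have h2 : mfderiv 𝓘(ℝ, EuclideanSpace ℝ (Fin n)) (𝓡 n) φ.symm y =
      mfderiv 𝓘(ℝ, EuclideanSpace ℝ (Fin n)) (𝓡 n) (φ'.symm ∘ (trans x x')) y := hev.mfderiv_eq
    unfold ds
    rw [← hφ, ← hφ', h2, mfderiv_comp y hd5 hd3, mfderiv_eq_fderiv]
    rfl
  have hg : (gram x y).det =
      (fderiv ℝ (trans x x') y).det ^ 2 * (gram x' (trans x x' y)).det := by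
    have h1 := det_gram_comp (metL (φ.symm y)) (ds x' (trans x x' y)) (fderiv ℝ (trans x x') y)
    have e1 : gram x y = Matrix.of fun i j => metL (φ.symm y)
        (ds x' (trans x x' y) (fderiv ℝ (trans x x') y (EuclideanSpace.single i 1)))
        (ds x' (trans x x' y) (fderiv ℝ (trans x x') y (EuclideanSpace.single j 1))) := by
      ext i j
      rw [gram_apply, Matrix.of_apply, metL_apply, hds, hds]
    have e2 : gram x' (trans x x' y) = Matrix.of fun i j => metL (φ.symm y)
        (ds x' (trans x x' y) (EuclideanSpace.single i 1))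
        (ds x' (trans x x' y) (EuclideanSpace.single j 1)) := by
      ext i j
      rw [gram_apply, Matrix.of_apply, metL_apply, ← hφ', hpt]
    rw [e1, e2, h1]
  unfold dens
  rw [hg, Real.sqrt_mul (sq_nonneg _), Real.sqrt_sq_eq_abs, ENNReal.ofReal_mul (abs_nonneg _)]

omit [RiemannianBundle fun x : M => TangentSpace (𝓡 n) x] [IsManifold (𝓡 n) ∞ M] in
theorem trans_injOn (x x' : M) : InjOn (trans x x') ((extChartAt (𝓡 n) x).target ∩
    (extChartAt (𝓡 n) x).symm ⁻¹' (extChartAt (𝓡 n) x').source) := by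
  intro y hy z hz h
  have h1 := (extChartAt (𝓡 n) x').injOn hy.2 hz.2 h
  exact (extChartAt (𝓡 n) x).symm.injOn hy.1 hz.1 h1

variable [MeasurableSpace M] [BorelSpace M]

/-- The volume in a chart. -/
def vc (x : M) : Measure M :=
  Measure.map (fun y : (extChartAt (𝓡 n) x).target => (extChartAt (𝓡 n) x).symm y.1)
    (Measure.comap Subtype.val (volume.withDensity (dens x)))

omit [RiemannianBundle fun x : M => TangentSpace (𝓡 n) x] [IsManifold (𝓡 n) ∞ M]
  [MeasurableSpace M] [BorelSpace M] in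
theorem image_chart (x : M) (A : Set M) (hA : A ⊆ (extChartAt (𝓡 n) x).source) :
    (extChartAt (𝓡 n) x) '' A =
      (extChartAt (𝓡 n) x).target ∩ (extChartAt (𝓡 n) x).symm ⁻¹' A := by
  have h := (extChartAt (𝓡 n) x).image_source_inter_eq' A
  rwa [inter_eq_self_of_subset_right hA] at h

omit [RiemannianBundle fun x : M => TangentSpace (𝓡 n) x] [IsManifold (𝓡 n) ∞ M] in
theorem meas_symm (x : M) : Measurable
    (fun y : (extChartAt (𝓡 n) x).target => (extChartAt (𝓡 n) x).symm y.1) :=
  (continuousOn_iff_continuous_domRestrict.1 (continuousOn_extChartAt_symm (I := 𝓡 n) x)).measurable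

omit [RiemannianBundle fun x : M => TangentSpace (𝓡 n) x] [IsManifold (𝓡 n) ∞ M] in
theorem meas_image (x : M) (A : Set M) (hA : MeasurableSet A)
    (hA' : A ⊆ (extChartAt (𝓡 n) x).source) : MeasurableSet ((extChartAt (𝓡 n) x) '' A) := by
  have h1 : (extChartAt (𝓡 n) x) '' A = Subtype.val ''
      ((fun y : (extChartAt (𝓡 n) x).target => (extChartAt (𝓡 n) x).symm y.1) ⁻¹' A) := by
    rw [image_chart x A hA']
    ext y
    constructor
    · rintro ⟨h1, h2⟩
      exact ⟨⟨y, h1⟩, h2, rfl⟩
    · rintro ⟨⟨z, hz⟩, h2, rfl⟩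
      exact ⟨hz, h2⟩
  rw [h1]
  exact (MeasurableEmbedding.subtype_coe (isOpen_extChartAt_target x).measurableSet).measurableSet_image.2
    (meas_symm x hA)

theorem vc_apply (x : M) (A : Set M) (hA : MeasurableSet A)
    (hA' : A ⊆ (extChartAt (𝓡 n) x).source) :
    vc (n := n) x A = ∫⁻ y in (extChartAt (𝓡 n) x) '' A, dens x y := by
  have hemb := MeasurableEmbedding.subtype_coe (isOpen_extChartAt_target (I := 𝓡 n) x).measurableSet
  rw [vc, Measure.map_apply (meas_symm x) hA, hemb.comap_apply]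
  have h1 : Subtype.val ''
      ((fun y : (extChartAt (𝓡 n) x).target => (extChartAt (𝓡 n) x).symm y.1) ⁻¹' A) =
      (extChartAt (𝓡 n) x) '' A := by
    rw [image_chart x A hA']
    ext y
    constructor
    · rintro ⟨⟨z, hz⟩, h2, rfl⟩
      exact ⟨hz, h2⟩
    · rintro ⟨h1, h2⟩
      exact ⟨⟨y, h1⟩, h2, rfl⟩
  rw [h1, withDensity_apply _ (meas_image x A hA hA')]

/-- The volumes in two charts agree. -/
theorem vc_eq (x x' : M) (A : Set M) (hA : MeasurableSet A)
    (h1 : A ⊆ (extChartAt (𝓡 n) x).source) (h2 : A ⊆ (extChartAt (𝓡 n) x').source) :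
    vc (n := n) x A = vc (n := n) x' A := by
  rw [vc_apply x A hA h1, vc_apply x' A hA h2]
  have himg : (extChartAt (𝓡 n) x') '' A = trans x x' '' ((extChartAt (𝓡 n) x) '' A) := by
    rw [image_image]
    refine image_congr fun p hp => ?_
    unfold trans
    rw [(extChartAt (𝓡 n) x).left_inv (h1 hp)]
  have hmem : ∀ y ∈ (extChartAt (𝓡 n) x) '' A, y ∈ (extChartAt (𝓡 n) x).target ∧
      (extChartAt (𝓡 n) x).symm y ∈ (extChartAt (𝓡 n) x').source := by
    rintro _ ⟨p, hp, rfl⟩
    refine ⟨(extChartAt (𝓡 n) x).map_source (h1 hp), ?_⟩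
    rw [(extChartAt (𝓡 n) x).left_inv (h1 hp)]
    exact h2 hp
  rw [himg, lintegral_image_eq_lintegral_abs_det_fderiv_mul volume (meas_image x A hA h1)
    (f := trans x x') (f' := fun y => fderiv ℝ (trans x x') y)
    (fun y hy => (dens_trans x x' y (hmem y hy).1 (hmem y hy).2).1.hasFDerivWithinAt)
    ((trans_injOn x x').mono fun y hy => hmem y hy)]
  exact setLIntegral_congr_fun (meas_image x A hA h1)
    fun y hy => (dens_trans x x' y (hmem y hy).1 (hmem y hy).2).2

/-- [RVEX] The Riemannian volume exists. -/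
theorem exists_riemannianVolume [CompactSpace M] :
    ∃ vol : Measure M, IsRiemannianVolume (n := n) vol := by
  classical
  rcases isEmpty_or_nonempty M with hM | hM
  · exact ⟨0, fun x => hM.elim x⟩
  obtain ⟨t, ht, htc⟩ := TopologicalSpace.countable_cover_nhds
    (f := fun x : M => (extChartAt (𝓡 n) x).source) (fun x => extChartAt_source_mem_nhds x)
  have htne : t.Nonempty := by
    by_contra hcon
    rw [not_nonempty_iff_eq_empty] at hcon
    rw [hcon] at htc
    simp only [mem_empty_iff_false, iUnion_of_empty, iUnion_empty] at htc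
    exact empty_ne_univ htc
  obtain ⟨u, hu⟩ := ht.exists_eq_range htne
  set U : ℕ → Set M := fun i => (extChartAt (𝓡 n) (u i)).source with hU
  have hUm : ∀ i, MeasurableSet (U i) := fun i => (isOpen_extChartAt_source (u i)).measurableSet
  set V : ℕ → Set M := disjointed U with hV
  have hVm : ∀ i, MeasurableSet (V i) := fun i => MeasurableSet.disjointed hUm i
  have hVU : ∀ i, V i ⊆ U i := disjointed_subset U
  have hVcov : ⋃ i, V i = univ := by
    rw [hV, iUnion_disjointed]
    rw [hu] at htc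
    simpa [hU] using htc
  refine ⟨Measure.sum fun i => (vc (n := n) (u i)).restrict (V i), ?_⟩
  intro x A hA hAx
  have hAx' : A ⊆ (extChartAt (𝓡 n) x).source := by
    rwa [extChartAt_source]
  have h1 : A = ⋃ i, A ∩ V i := by
    rw [← inter_iUnion, hVcov, inter_univ]
  have h2 : vc (n := n) x A = ∑' i, vc (n := n) x (A ∩ V i) := by
    conv_lhs => rw [h1]
    exact measure_iUnion (fun i j hij => ((disjoint_disjointed U hij).mono inter_subset_right
      inter_subset_right)) fun i => hA.inter (hVm i)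
  rw [Measure.sum_apply _ hA]
  change _ = ∫⁻ y in (extChartAt (𝓡 n) x) '' A, dens x y
  rw [← vc_apply x A hA hAx', h2]
  refine tsum_congr fun i => ?_
  rw [Measure.restrict_apply hA]
  exact vc_eq (u i) x _ (hA.inter (hVm i)) (inter_subset_right.trans (hVU i))
    (inter_subset_left.trans hAx')

end

end Pool.Agent.Lib.MP_72b724_gt.H51
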